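import Mathlib
import Pool.Agent.Helper226.LociDefs
import Pool.Agent.Helper226.VCDefs

/-! Elementary components of Hilbert schemes of points. -/

set_option autoImplicit false

open CategoryTheory AlgebraicGeometry
open Pool.Agent.Helper226

universe u

namespace Pool.Agent.W5h92.Elem

/-- Elementary components: irreducible components `C` of the Hilbert scheme of points of affine
`n`-space such that the subscheme corresponding to a general point of `C` is supported at a single
point, that is, there is an open set `U` such that `C ∩ U` contains a `k`-point and the ideal of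
every `k`-point of `C ∩ U` has as its radical the maximal ideal of a point `v` of affine
`n`-space. -/
def IsElementary {k : Type u} [Field k] {n d : ℕ}
    (𝓗 : HilbertScheme k (MvPolynomial (Fin n) k) d) (C : Set 𝓗.H) : Prop :=
  C ∈ irreducibleComponents 𝓗.H ∧ ∃ U : Set 𝓗.H, IsOpen U ∧
    (∃ f : PointsOver k 𝓗.H 𝓗.s k, Set.range f.1 ⊆ C ∩ U) ∧
    ∀ f : PointsOver k 𝓗.H 𝓗.s k, Set.range f.1 ⊆ C ∩ U →
      ∃ v : Fin n → k, (𝓗.idealOf f).radical = pointIdeal v

end Pool.Agent.W5h92.Elem
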