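import Mathlib

/-! Linear algebra and transcendence degree lemmas. -/

set_option autoImplicit false

open Cardinal

namespace Pool.Agent.W5h92.Elem

section lin

/-- A solution of a linear system with coefficients in a subfield `L` and trivial kernel has
coordinates in `L`. -/
lemma mem_of_linear {L K : Type*} [Field L] [Field K] [Algebra L K] {m n : Type*} [Fintype n]
    (M : m → n → L)
    (hinj : ∀ v : n → K, (∀ i, ∑ j, v j * algebraMap L K (M i j) = 0) → v = 0)
    (v : n → K) (w : m → L)
    (h : ∀ i, ∑ j, v j * algebraMap L K (M i j) = algebraMap L K (w i)) (j : n) :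
    v j ∈ Set.range (algebraMap L K) := by
  obtain ⟨π, hπ⟩ := LinearMap.exists_leftInverse_of_injective (Algebra.linearMap L K)
    (LinearMap.ker_eq_bot.2 (algebraMap L K).injective)
  have hπ' : ∀ x : L, π (algebraMap L K x) = x := fun x => LinearMap.congr_fun hπ x
  have key : (fun j => v j - algebraMap L K (π (v j))) = 0 := by
    apply hinj
    intro i
    simp only [sub_mul, Finset.sum_sub_distrib]
    rw [h i, sub_eq_zero]
    have h1 := congrArg π (h i)
    rw [hπ', map_sum] at h1
    rw [← h1, map_sum]
    refine Finset.sum_congr rfl fun j _ => ?_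
    rw [mul_comm (v j), ← Algebra.smul_def, map_smul, smul_eq_mul, map_mul, mul_comm]
  have h2 := congrFun key j
  simp only [Pi.zero_apply, sub_eq_zero] at h2
  exact ⟨_, h2.symm⟩

end lin

section trdeg

open Algebra AlgebraicIndependent

variable {k : Type*} [Field k] {K : Type*} [Field K] [Algebra k K]

/-- elements algebraic over a field generated by a finite set have bounded transcendence degree -/
lemma trdeg_le_of_alg {A : Type*} [CommRing A] [Algebra k A] (φ : A →ₐ[k] K)
    (hφ : Function.Injective φ) (s : Finset K)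
    (h : ∀ a, IsAlgebraic (Algebra.adjoin k (s : Set K)) (φ a)) :
    Algebra.trdeg k A ≤ s.card := by
  have hsub : Set.range φ ⊆ (matroid k K).closure (s : Set K) := by
    rw [matroid_closure_eq]
    rintro _ ⟨a, rfl⟩
    exact h a
  rw [Algebra.trdeg]
  refine ciSup_le' fun t => ?_
  have h1 : AlgebraicIndepOn k id (φ '' t.1) := by
    have h2 : AlgebraicIndependent k (fun x : t.1 => φ x.1) := t.2.map' hφ
    have h3 := h2.to_subtype_range
    have h4 : Set.range (fun x : t.1 => φ x.1) = φ '' t.1 := by
      rw [← Set.image_eq_range]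
    rw [h4] at h3
    exact h3
  rw [← matroid_indep_iff] at h1
  have h2 : (φ '' t.1).encard ≤ (s : Set K).encard := by
    have h3 := h1.encard_le_eRk_of_subset ((Set.image_subset_range φ t.1).trans hsub)
    rw [Matroid.eRk_closure_eq] at h3
    exact h3.trans (Matroid.eRk_le_encard _ _)
  rw [hφ.encard_image, Set.encard_coe_eq_coe_finsetCard] at h2
  have hfin : t.1.Finite := Set.finite_of_encard_le_coe h2
  have h3 : t.1.ncard ≤ s.card := by
    rw [← hfin.cast_ncard_eq] at h2
    exact_mod_cast h2
  have := hfin.to_subtype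
  rw [← Nat.cast_card, Nat.card_coe_set_eq]
  exact_mod_cast h3

lemma exists_alg_of_trdeg_le {A : Type*} [CommRing A] [IsDomain A] [Algebra k A] (φ : A →ₐ[k] K)
    (hφ : Function.Injective φ) (N : ℕ) (h : Algebra.trdeg k A ≤ N) :
    ∃ s : Finset K, s.card ≤ N ∧ ∀ a, IsAlgebraic (Algebra.adjoin k (s : Set K)) (φ a) := by
  classical
  obtain ⟨t, ht⟩ := exists_isTranscendenceBasis k A
  have h1 := ht.cardinalMk_eq_trdeg
  have h2 : #t ≤ N := h1.trans_le h
  have hfin : t.Finite := by
    rw [← Set.finite_coe_iff, ← Cardinal.mk_lt_aleph0_iff]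
    exact h2.trans_lt (Cardinal.natCast_lt_aleph0)
  refine ⟨hfin.toFinset.image φ, ?_, ?_⟩
  · refine Finset.card_image_le.trans ?_
    have h3 : #t = hfin.toFinset.card := by
      rw [← Cardinal.mk_coe_finset]
      congr 1
      simp
    rw [h3] at h2
    exact_mod_cast h2
  · intro a
    have h4 := ht.isAlgebraic.isAlgebraic a
    rw [Subtype.range_coe] at h4
    have h5 : ((hfin.toFinset.image φ : Finset K) : Set K) = φ '' t := by simp
    rw [h5, ← AlgHom.map_adjoin]
    obtain ⟨p, hp0, hp⟩ := h4
    let ψ : Algebra.adjoin k t →+* (Algebra.adjoin k t).map φ :=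
      (φ.toRingHom.restrict (Algebra.adjoin k t) ((Algebra.adjoin k t).map φ)
        (fun x hx => ⟨x, hx, rfl⟩))
    have hψ : Function.Injective ψ := by
      intro x y hxy
      apply Subtype.ext
      apply hφ
      exact congrArg Subtype.val hxy
    refine ⟨p.map ψ, ?_, ?_⟩
    · rwa [Ne, Polynomial.map_eq_zero_iff hψ]
    · rw [Polynomial.aeval_def, Polynomial.eval₂_map]
      have h6 : (algebraMap ((Algebra.adjoin k t).map φ) K).comp ψ =
          φ.toRingHom.comp (algebraMap (Algebra.adjoin k t) A) := by
        ext x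
        rfl
      rw [h6]
      change Polynomial.eval₂ (φ.toRingHom.comp (algebraMap (Algebra.adjoin k t) A))
        (φ.toRingHom a) p = 0
      rw [← Polynomial.hom_eval₂]
      rw [Polynomial.aeval_def] at hp
      rw [hp, map_zero]

end trdeg

end Pool.Agent.W5h92.Elem
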