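import Mathlib

/-! Splitting of a finite algebra which is not local. -/

set_option autoImplicit false

open Filter

namespace Pool.Agent.W5h92.Elem

lemma exists_split_zero {K Q : Type*} [Field K] [CommRing Q] [Algebra K Q] [Module.Finite K Q]
    [Nontrivial Q] (h : ¬ IsLocalRing Q) :
    ∃ J J' : Ideal Q, J ⊓ J' = ⊥ ∧ J ≠ ⊤ ∧ J' ≠ ⊤ ∧
      Module.finrank K (Q ⧸ J) + Module.finrank K (Q ⧸ J') = Module.finrank K Q := by
  have h1 : ∃ a : Q, ¬ IsUnit a ∧ ¬ IsUnit (1 - a) := by
    by_contra hcon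
    push Not at hcon
    apply h
    refine IsLocalRing.of_isUnit_or_isUnit_one_sub_self fun a => ?_
    by_cases ha : IsUnit a
    · exact Or.inl ha
    · exact Or.inr (hcon a ha)
  obtain ⟨a, ha, ha'⟩ := h1
  let f : Q →ₗ[K] Q := LinearMap.mulLeft K a
  obtain ⟨n, hn1, hn⟩ := ((eventually_ge_atTop 1).and
    (LinearMap.eventually_isCompl_ker_pow_range_pow f)).exists
  have hf : ∀ x, (f ^ n) x = a ^ n * x := by
    intro x
    simp only [f, LinearMap.pow_mulLeft, LinearMap.mulLeft_apply]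
  let J : Ideal Q := Ideal.span {a ^ n}
  let J' : Ideal Q := LinearMap.ker (LinearMap.mulLeft Q (a ^ n))
  have hJ : J.restrictScalars K = LinearMap.range (f ^ n) := by
    ext x
    rw [Submodule.restrictScalars_mem, LinearMap.mem_range, Ideal.mem_span_singleton']
    constructor
    · rintro ⟨y, rfl⟩
      exact ⟨y, by rw [hf, mul_comm]⟩
    · rintro ⟨y, rfl⟩
      exact ⟨y, by rw [hf, mul_comm]⟩
  have hJ' : J'.restrictScalars K = LinearMap.ker (f ^ n) := by
    ext x
    rw [Submodule.restrictScalars_mem, LinearMap.mem_ker (f := f ^ n), hf]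
    rfl
  refine ⟨J, J', ?_, ?_, ?_, ?_⟩
  · rw [eq_bot_iff]
    intro x hx
    have h2 : x ∈ (LinearMap.ker (f ^ n) ⊓ LinearMap.range (f ^ n)) := by
      rw [← hJ, ← hJ']
      exact ⟨hx.2, hx.1⟩
    rw [hn.inf_eq_bot] at h2
    exact h2
  · intro htop
    rw [Ideal.span_singleton_eq_top] at htop
    exact ha ((isUnit_pow_iff (by omega)).1 htop)
  · intro htop
    have h2 : (1 : Q) ∈ J' := by rw [htop]; trivial
    have h3 : a ^ n = 0 := by
      have : a ^ n * 1 = 0 := h2
      simpa using this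
    exact ha' (IsNilpotent.isUnit_one_sub ⟨n, h3⟩)
  · have e1 := Submodule.finrank_quotient_add_finrank (J.restrictScalars K)
    have e2 := Submodule.finrank_quotient_add_finrank (J'.restrictScalars K)
    have e3 := Submodule.finrank_add_eq_of_isCompl hn
    rw [← hJ, ← hJ'] at e3
    have e4 : Module.finrank K (Q ⧸ J.restrictScalars K) = Module.finrank K (Q ⧸ J) := rfl
    have e5 : Module.finrank K (Q ⧸ J'.restrictScalars K) = Module.finrank K (Q ⧸ J') := rfl
    omega

lemma exists_split {K P : Type*} [Field K] [CommRing P] [Algebra K P] (I : Ideal P)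
    [Module.Finite K (P ⧸ I)] (hne : I ≠ ⊤) (h : ¬ IsLocalRing (P ⧸ I)) :
    ∃ J J' : Ideal P, J ⊓ J' = I ∧ J ≠ ⊤ ∧ J' ≠ ⊤ ∧ Module.Finite K (P ⧸ J) ∧
      Module.Finite K (P ⧸ J') ∧
      Module.finrank K (P ⧸ J) + Module.finrank K (P ⧸ J') = Module.finrank K (P ⧸ I) := by
  have : Nontrivial (P ⧸ I) := Ideal.Quotient.nontrivial_iff.2 hne
  obtain ⟨J, J', h1, h2, h3, h4⟩ := exists_split_zero (K := K) h
  have key : ∀ L : Ideal (P ⧸ I), ∃ e : (P ⧸ L.comap (Ideal.Quotient.mk I)) ≃ₗ[K] ((P ⧸ I) ⧸ L),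
      True := by
    intro L
    refine ⟨?_, trivial⟩
    have hs : Function.Surjective ((Ideal.Quotient.mkₐ K L).comp (Ideal.Quotient.mkₐ K I)) :=
      (Ideal.Quotient.mkₐ_surjective K L).comp (Ideal.Quotient.mkₐ_surjective K I)
    have hk : RingHom.ker ((Ideal.Quotient.mkₐ K L).comp (Ideal.Quotient.mkₐ K I)) =
        L.comap (Ideal.Quotient.mk I) := by
      ext x
      rw [RingHom.mem_ker, AlgHom.comp_apply, Ideal.mem_comap]
      exact Ideal.Quotient.eq_zero_iff_mem
    exact ((Ideal.quotientEquivAlgOfEq K hk.symm).trans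
      (Ideal.quotientKerAlgEquivOfSurjective hs)).toLinearEquiv
  obtain ⟨e, -⟩ := key J
  obtain ⟨e', -⟩ := key J'
  refine ⟨J.comap (Ideal.Quotient.mk I), J'.comap (Ideal.Quotient.mk I), ?_, ?_, ?_, ?_, ?_, ?_⟩
  · rw [← Ideal.comap_inf, h1]
    exact Ideal.mk_ker
  · intro ht
    apply h2
    rw [← Ideal.map_comap_of_surjective _ Ideal.Quotient.mk_surjective J, ht, Ideal.map_top]
  · intro ht
    apply h3
    rw [← Ideal.map_comap_of_surjective _ Ideal.Quotient.mk_surjective J', ht, Ideal.map_top]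
  · exact Module.Finite.equiv e.symm
  · exact Module.Finite.equiv e'.symm
  · rw [e.finrank_eq, e'.finrank_eq, h4]

end Pool.Agent.W5h92.Elem
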