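import Mathlib
import Pool.Agent.Helper226.LociPts
import Pool.Agent.W5h92.Elem.Lin
import Pool.Agent.W5h92.Elem.Split

/-! Chart data over fields: colength, intersections, bounds on the transcendence degree. -/

set_option autoImplicit false

open scoped TensorProduct
open Pool.Agent.Helper226

universe u

namespace Pool.Agent.W5h92.Elem

section
variable {k : Type u} [Field k] {B : Type u} [CommRing B] [Algebra k B] {d : ℕ}
variable {K : Type u} [Field K] [Algebra k K]

lemma chart_L_surjective {b : Fin d → B} (c : Chart k b K) : Function.Surjective c.L :=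
  fun v => ⟨Chart.expand K b v, c.L_expand v⟩

/-- the quotient by the ideal of a chart datum -/
lemma chart_quot {b : Fin d → B} (c : Chart k b K) :
    Module.Finite K ((K ⊗[k] B) ⧸ c.ideal) ∧ Module.finrank K ((K ⊗[k] B) ⧸ c.ideal) = d := by
  have hk : LinearMap.ker c.L = c.ideal.restrictScalars K := by
    ext x
    rw [LinearMap.mem_ker, Submodule.restrictScalars_mem, Chart.mem_ideal]
  let e : ((K ⊗[k] B) ⧸ c.ideal) ≃ₗ[K] (Fin d → K) :=
    (Submodule.quotEquivOfEq _ _ hk.symm).trans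
      (c.L.quotKerEquivOfSurjective (chart_L_surjective c))
  exact ⟨Module.Finite.equiv e.symm, by rw [e.finrank_eq]; simp⟩

/-- an ideal of finite colength has a chart datum -/
lemma exists_chart (J : Ideal (K ⊗[k] B)) [Module.Finite K ((K ⊗[k] B) ⧸ J)] (a : ℕ)
    (ha : Module.finrank K ((K ⊗[k] B) ⧸ J) = a) :
    ∃ (b : Fin a → B) (c : Chart k b K), c.ideal = J := by
  classical
  let π : (K ⊗[k] B) →ₗ[K] ((K ⊗[k] B) ⧸ J) := (Ideal.Quotient.mkₐ K J).toLinearMap
  have hπ : Function.Surjective π := Ideal.Quotient.mk_surjective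
  let t : Set ((K ⊗[k] B) ⧸ J) := Set.range fun x : B => π (1 ⊗ₜ x)
  have hspan : Submodule.span K t = ⊤ := by
    rw [eq_top_iff]
    rintro y -
    obtain ⟨x, rfl⟩ := hπ y
    induction x using TensorProduct.induction_on with
    | zero => rw [map_zero]; exact Submodule.zero_mem _
    | add x y hx hy => rw [map_add]; exact Submodule.add_mem _ hx hy
    | tmul r x =>
      have : (r ⊗ₜ[k] x : K ⊗[k] B) = r • (1 ⊗ₜ[k] x) := by
        rw [TensorProduct.smul_tmul', smul_eq_mul, mul_one]
      rw [this, map_smul]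
      exact Submodule.smul_mem _ _ (Submodule.subset_span ⟨x, rfl⟩)
  obtain ⟨s, hst, hs, hli⟩ := exists_linearIndependent K t
  rw [hspan] at hs
  let bs : Module.Basis s K ((K ⊗[k] B) ⧸ J) :=
    Module.Basis.mk hli (by rw [Subtype.range_coe, hs])
  have hfin : Finite s := Module.Finite.finite_basis bs
  have : Fintype s := Fintype.ofFinite s
  have hcard : Fintype.card s = a := by rw [← ha, Module.finrank_eq_card_basis bs]
  let e : s ≃ Fin a := Fintype.equivFinOfCardEq hcard
  have hex : ∀ i : Fin a, ∃ x : B, π (1 ⊗ₜ x) = (e.symm i : (K ⊗[k] B) ⧸ J) :=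
    fun i => hst (e.symm i).2
  choose b hb using hex
  let L : (K ⊗[k] B) →ₗ[K] (Fin a → K) := (bs.reindex e).equivFun.toLinearMap ∘ₗ π
  have hL0 : ∀ x, L x = 0 ↔ x ∈ J := by
    intro x
    change (bs.reindex e).equivFun (π x) = 0 ↔ _
    rw [LinearEquiv.map_eq_zero_iff]
    exact Ideal.Quotient.eq_zero_iff_mem
  refine ⟨b, Chart.mk' b L ?_ ?_, ?_⟩
  · intro i
    change (bs.reindex e).equivFun (π (1 ⊗ₜ b i)) = _
    rw [hb]
    have : (e.symm i : (K ⊗[k] B) ⧸ J) = (bs.reindex e) i := by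
      rw [Module.Basis.reindex_apply]
      simp [bs]
    rw [this]
    ext j
    simp [Module.Basis.equivFun_apply, Finsupp.single_apply, Pi.single_apply, eq_comm]
  · intro x y hx
    rw [hL0] at hx ⊢
    exact J.mul_mem_right y hx
  · ext x
    rw [Chart.mem_ideal, Chart.mk'_L, hL0]

/-- the structure constants of the chart datum are algebraic over a field generated by at most
`N` elements -/
def Bd {b : Fin d → B} (c : Chart k b K) (N : ℕ) : Prop :=
  ∃ s : Finset K, s.card ≤ N ∧
    ∀ x j, IsAlgebraic (Algebra.adjoin k (s : Set K)) (c.q x j)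

lemma Bd.mono {b : Fin d → B} {c : Chart k b K} {N N' : ℕ} (h : Bd c N) (hN : N ≤ N') :
    Bd c N' := by
  obtain ⟨s, hs, h⟩ := h
  exact ⟨s, hs.trans hN, h⟩

lemma isAlgebraic_mono {s t : Set K} (hst : s ⊆ t) {x : K}
    (h : IsAlgebraic (Algebra.adjoin k s) x) : IsAlgebraic (Algebra.adjoin k t) x := by
  obtain ⟨p, hp0, hp⟩ := h
  have hle : Algebra.adjoin k s ≤ Algebra.adjoin k t := Algebra.adjoin_mono hst
  refine ⟨p.map (Subalgebra.inclusion hle).toRingHom, ?_, ?_⟩
  · rwa [Ne, Polynomial.map_eq_zero_iff (Subalgebra.inclusion_injective hle)]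
  · rw [Polynomial.aeval_def, Polynomial.eval₂_map]
    exact hp

/-- the chart datum of an intersection of ideals -/
lemma Bd.inf {b : Fin d → B} {a₁ a₂ : ℕ} {b₁ : Fin a₁ → B} {b₂ : Fin a₂ → B} {c : Chart k b K}
    {c₁ : Chart k b₁ K} {c₂ : Chart k b₂ K} (h : c₁.ideal ⊓ c₂.ideal = c.ideal) {N₁ N₂ : ℕ}
    (h₁ : Bd c₁ N₁) (h₂ : Bd c₂ N₂) : Bd c (N₁ + N₂) := by
  classical
  obtain ⟨s₁, hs₁, h₁⟩ := h₁
  obtain ⟨s₂, hs₂, h₂⟩ := h₂
  refine ⟨s₁ ∪ s₂, (Finset.card_union_le _ _).trans (add_le_add hs₁ hs₂), ?_⟩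
  set S : Set K := ((s₁ ∪ s₂ : Finset K) : Set K) with hS
  let F := IntermediateField.adjoin k S
  let E := algebraicClosure F K
  have hmem : ∀ z : K, IsAlgebraic (Algebra.adjoin k S) z → z ∈ E := by
    intro z hz
    rw [mem_algebraicClosure_iff, IntermediateField.isAlgebraic_adjoin_iff]
    exact hz
  have hmem' : ∀ z : K, z ∈ E → IsAlgebraic (Algebra.adjoin k S) z := by
    intro z hz
    rwa [mem_algebraicClosure_iff, IntermediateField.isAlgebraic_adjoin_iff] at hz
  have e₁ : ∀ x j, c₁.q x j ∈ E := fun x j => hmem _ (isAlgebraic_mono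
    (by rw [hS, Finset.coe_union]; exact Set.subset_union_left) (h₁ x j))
  have e₂ : ∀ x j, c₂.q x j ∈ E := fun x j => hmem _ (isAlgebraic_mono
    (by rw [hS, Finset.coe_union]; exact Set.subset_union_right) (h₂ x j))
  intro x j
  apply hmem'
  -- the linear system
  let M : (Fin a₁ ⊕ Fin a₂) → Fin d → E := fun i j =>
    Sum.elim (fun i => ⟨c₁.q (b j) i, e₁ _ _⟩) (fun i => ⟨c₂.q (b j) i, e₂ _ _⟩) i
  let w : (Fin a₁ ⊕ Fin a₂) → E := fun i =>
    Sum.elim (fun i => ⟨c₁.q x i, e₁ _ _⟩) (fun i => ⟨c₂.q x i, e₂ _ _⟩) i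
  have hexp₁ : ∀ v : Fin d → K, ∀ i, c₁.L (Chart.expand K b v) i = ∑ j, v j * c₁.q (b j) i := by
    intro v i
    rw [Chart.expand_apply, map_sum, Finset.sum_apply]
    exact Finset.sum_congr rfl fun j _ => by rw [Chart.L_tmul, Pi.smul_apply, smul_eq_mul]
  have hexp₂ : ∀ v : Fin d → K, ∀ i, c₂.L (Chart.expand K b v) i = ∑ j, v j * c₂.q (b j) i := by
    intro v i
    rw [Chart.expand_apply, map_sum, Finset.sum_apply]
    exact Finset.sum_congr rfl fun j _ => by rw [Chart.L_tmul, Pi.smul_apply, smul_eq_mul]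
  have hmain := mem_of_linear (L := E) (K := K) M (by
    intro v hv
    have hv₁ : Chart.expand K b v ∈ c₁.ideal := by
      rw [Chart.mem_ideal]
      ext i
      rw [hexp₁]
      exact hv (Sum.inl i)
    have hv₂ : Chart.expand K b v ∈ c₂.ideal := by
      rw [Chart.mem_ideal]
      ext i
      rw [hexp₂]
      exact hv (Sum.inr i)
    have hv3 : Chart.expand K b v ∈ c.ideal := by
      rw [← h]
      exact ⟨hv₁, hv₂⟩
    rw [Chart.mem_ideal, Chart.L_expand] at hv3
    exact hv3) (c.q x) w (by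
    have hx := c.sub_expand_mem (1 ⊗ₜ x)
    rw [Chart.L_tmul, one_smul, ← h] at hx
    rintro (i | i)
    · have h3 := congrFun (Chart.mem_ideal.1 hx.1) i
      rw [map_sub, Pi.sub_apply, hexp₁, Chart.L_tmul, one_smul, Pi.zero_apply, sub_eq_zero] at h3
      exact h3.symm
    · have h3 := congrFun (Chart.mem_ideal.1 hx.2) i
      rw [map_sub, Pi.sub_apply, hexp₂, Chart.L_tmul, one_smul, Pi.zero_apply, sub_eq_zero] at h3
      exact h3.symm) j
  obtain ⟨y, hy⟩ := hmain
  rw [← hy]
  exact y.2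

/-- the bound from the generators of the chart ring -/
lemma Bd.finite {b : Fin d → B} (s : Finset B) (hs : Algebra.adjoin k (s : Set B) = ⊤)
    (c : Chart k b K) : Bd c (d + s.card * (d * d)) := by
  classical
  let T : Finset K := (Finset.univ.image fun l : Fin d => c.q 1 l) ∪
    ((s ×ˢ (Finset.univ : Finset (Fin d × Fin d))).image
      fun p : B × Fin d × Fin d => c.q (b p.2.1 * p.1) p.2.2)
  have hT : (T : Set K) = c.lift '' genFin (k := k) b s := by
    unfold genFin
    rw [Set.image_union, Set.image_image, ← Set.range_comp]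
    simp only [T, Finset.coe_union, Finset.coe_image, Finset.coe_univ, Set.image_univ,
      Finset.coe_product]
    congr 1
    · ext x
      simp only [Set.mem_range, Function.comp_apply, univChart_q, Chart.lift_mk]
    · ext x
      simp only [Set.mem_image, univChart_q, Chart.lift_mk]
  refine ⟨T, ?_, ?_⟩
  · refine (Finset.card_union_le _ _).trans (add_le_add ?_ ?_)
    · exact Finset.card_image_le.trans (by simp)
    · exact Finset.card_image_le.trans (by simp [Finset.card_product])
  · intro x j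
    have h1 := q_mem_adjoin (k := k) b s hs x 1
      (fun l => Algebra.subset_adjoin (Or.inl ⟨l, rfl⟩)) j
    rw [one_mul] at h1
    have h2 : c.q x j ∈ Algebra.adjoin k (T : Set K) := by
      rw [hT, ← AlgHom.map_adjoin]
      refine ⟨_, h1, ?_⟩
      change c.lift _ = _
      rw [univChart_q, Chart.lift_mk]
    exact isAlgebraic_algebraMap (⟨c.q x j, h2⟩ : Algebra.adjoin k (T : Set K))

end

end Pool.Agent.W5h92.Elem
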