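import Mathlib
import Pool.Agent.Helper226.LociPts
import Pool.Agent.Helper226.VCFam
import Pool.Agent.W5h92.Elem.ChartB

/-! If the generic member of a family is local, then every member is local. -/

set_option autoImplicit false

open scoped TensorProduct
open Pool.Agent.Helper226

universe u

namespace Pool.Agent.W5h92.Elem

lemma exists_residue {K Q : Type*} [Field K] [IsAlgClosed K] [CommRing Q] [Algebra K Q]
    [Module.Finite K Q] [IsLocalRing Q] :
    ∃ ρ : Q →ₐ[K] K, ∀ x, ρ x = 0 → IsNilpotent x := by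
  let M := IsLocalRing.maximalIdeal Q
  have hM : M.IsMaximal := IsLocalRing.maximalIdeal.isMaximal Q
  have : IsDomain (Q ⧸ M) := Ideal.Quotient.isDomain _
  have hart : IsArtinianRing Q := IsArtinianRing.of_finite K Q
  have hfin : Module.Finite K (Q ⧸ M) :=
    Module.Finite.of_surjective (Ideal.Quotient.mkₐ K M).toLinearMap Ideal.Quotient.mk_surjective
  have hbij : Function.Bijective (algebraMap K (Q ⧸ M)) :=
    IsAlgClosed.algebraMap_bijective_of_isIntegral
  let κ : (Q ⧸ M) ≃ₐ[K] K := (AlgEquiv.ofBijective (Algebra.ofId K (Q ⧸ M)) hbij).symm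
  refine ⟨(κ : (Q ⧸ M) →ₐ[K] K).comp (Ideal.Quotient.mkₐ K M), ?_⟩
  intro x hx
  have h1 : (Ideal.Quotient.mkₐ K M) x = 0 := by
    apply κ.injective
    rw [map_zero]
    exact hx
  have h2 : x ∈ M := Ideal.Quotient.eq_zero_iff_mem.1 h1
  exact Ring.KrullDimLE.isNilpotent_iff_mem_maximalIdeal.2 h2

/-- extension of a point along an integral extension -/
lemma exists_extend {k : Type u} [Field k] [IsAlgClosed k] {D : Type u} [CommRing D] [Algebra k D]
    [Algebra.FiniteType k D] {K : Type u} [CommRing K] [IsDomain K] [Algebra k K] [Algebra D K]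
    [IsScalarTower k D K] (hinj : Function.Injective (algebraMap D K)) {n : ℕ} (v : Fin n → K)
    (hv : ∀ i, IsIntegral D (v i)) (g : D →ₐ[k] k) :
    ∃ (D' : Subalgebra D K) (_ : ∀ i, v i ∈ D') (g' : D' →ₐ[k] k),
      g'.comp (IsScalarTower.toAlgHom k D D') = g := by
  refine ⟨Algebra.adjoin D (Set.range v), fun i => Algebra.subset_adjoin ⟨i, rfl⟩, ?_⟩
  set D' := Algebra.adjoin D (Set.range v) with hD'
  have hfg : (Subalgebra.toSubmodule D').FG :=
    fg_adjoin_of_finite (Set.finite_range v) (by rintro _ ⟨i, rfl⟩; exact hv i)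
  have hfin : Module.Finite D D' := ⟨(Submodule.fg_top _).2 hfg⟩
  have hft : Algebra.FiniteType k D' := Algebra.FiniteType.trans (S := D) inferInstance
    inferInstance
  have hint : Algebra.IsIntegral D D' := inferInstance
  have hinj' : Function.Injective (algebraMap D D') := by
    intro x y hxy
    apply hinj
    rw [IsScalarTower.algebraMap_apply D D' K, hxy, ← IsScalarTower.algebraMap_apply D D' K]
  have hmax : (RingHom.ker g).IsMaximal :=
    RingHom.ker_isMaximal_of_surjective g (fun a => ⟨algebraMap k D a, g.commutes a⟩)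
  obtain ⟨M, hM, hMc⟩ := Ideal.exists_ideal_over_maximal_of_isIntegral (S := D') (RingHom.ker g)
    (by rw [(RingHom.injective_iff_ker_eq_bot _).1 hinj']; exact bot_le)
  obtain ⟨g', hg'⟩ := exists_hom_of_maximal (k := k) M hM
  refine ⟨g', ?_⟩
  ext x
  have h1 : x - algebraMap k D (g x) ∈ RingHom.ker g := by
    rw [RingHom.mem_ker, map_sub, AlgHom.commutes]
    simp
  rw [← hMc, Ideal.mem_comap, ← hg', RingHom.mem_ker, map_sub, map_sub, sub_eq_zero] at h1
  rw [AlgHom.comp_apply]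
  change g' (algebraMap D D' x) = _
  rw [h1, ← IsScalarTower.algebraMap_apply k D D', AlgHom.commutes]
  rfl

section
open MvPolynomial

variable {k : Type u} [Field k] {n : ℕ}

lemma pointIdeal_eq_ker (v : Fin n → k) :
    pointIdeal v = RingHom.ker (MvPolynomial.eval v) := by
  apply le_antisymm
  · unfold pointIdeal
    rw [Ideal.span_le]
    rintro _ ⟨i, rfl⟩
    simp
  · intro x hx
    have h := sub_eval_mem v x
    rw [RingHom.mem_ker.1 hx, map_zero, sub_zero] at h
    exact h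

lemma pointIdeal_isMaximal (v : Fin n → k) : (pointIdeal v).IsMaximal := by
  rw [pointIdeal_eq_ker]
  exact RingHom.ker_isMaximal_of_surjective _ (fun a => ⟨C a, by simp⟩)

lemma radical_eq_pointIdeal (I : Ideal (MvPolynomial (Fin n) k)) (hI : I ≠ ⊤) (w : Fin n → k)
    (N : ℕ) (h : ∀ i, (X i - C (w i)) ^ N ∈ I) : I.radical = pointIdeal w := by
  have hle : pointIdeal w ≤ I.radical := by
    unfold pointIdeal
    rw [Ideal.span_le]
    rintro _ ⟨i, rfl⟩
    exact ⟨N, h i⟩
  symm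
  apply (pointIdeal_isMaximal w).eq_of_le _ hle
  rw [Ne, Ideal.radical_eq_top]
  exact hI

variable {d : ℕ} {b : Fin d → MvPolynomial (Fin n) k}


lemma ker_ne_top (hd : 1 ≤ d) (c : Chart k b k) : c.ker ≠ ⊤ := by
  intro h
  have h1 : b ⟨0, hd⟩ ∈ c.ker := by rw [h]; trivial
  rw [Chart.mem_ker, c.q_b] at h1
  have h2 := congrFun h1 ⟨0, hd⟩
  simp at h2

/-- if the generic member of a family is local then all members are local -/
theorem local_family [IsAlgClosed k] (hd : 1 ≤ d) {D : Type u} [CommRing D] [Algebra k D]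
    [Algebra.FiniteType k D] {K : Type u} [Field K] [IsAlgClosed K] [Algebra k K] [Algebra D K]
    [IsScalarTower k D K] (hinj : Function.Injective (algebraMap D K)) (c : Chart k b D)
    (hloc : IsLocalRing ((K ⊗[k] MvPolynomial (Fin n) k) ⧸
      (c.map (IsScalarTower.toAlgHom k D K)).ideal)) (g : D →ₐ[k] k) :
    ∃ w : Fin n → k, (c.map g).ker.radical = pointIdeal w := by
  classical
  let φ : D →ₐ[k] K := IsScalarTower.toAlgHom k D K
  let cK := c.map φ
  have hcK : cK = c.map φ := rfl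
  have hloc' : IsLocalRing ((K ⊗[k] (MvPolynomial (Fin n) k)) ⧸ cK.ideal) := hloc
  have hfinK := (chart_quot cK).1
  obtain ⟨ρ, hρ⟩ := exists_residue (K := K) (Q := (K ⊗[k] (MvPolynomial (Fin n) k)) ⧸ cK.ideal)
  let π : (K ⊗[k] (MvPolynomial (Fin n) k)) →ₐ[K] K := ρ.comp (Ideal.Quotient.mkₐ K cK.ideal)
  let v : Fin n → K := fun i => π (1 ⊗ₜ X i)
  -- nilpotency
  have hnil : ∀ i, ∃ N : ℕ, ((1 : K) ⊗ₜ[k] (X i : (MvPolynomial (Fin n) k)) - (v i) ⊗ₜ[k] (1 : (MvPolynomial (Fin n) k))) ^ N ∈ cK.ideal := by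
    intro i
    have h1 : ρ (Ideal.Quotient.mkₐ K cK.ideal
        ((1 : K) ⊗ₜ[k] (X i : (MvPolynomial (Fin n) k)) - (v i) ⊗ₜ[k] (1 : (MvPolynomial (Fin n) k)))) = 0 := by
      change π ((1 : K) ⊗ₜ[k] (X i : (MvPolynomial (Fin n) k)) - (v i) ⊗ₜ[k] (1 : (MvPolynomial (Fin n) k))) = 0
      rw [map_sub]
      have : (v i) ⊗ₜ[k] (1 : (MvPolynomial (Fin n) k)) = algebraMap K (K ⊗[k] (MvPolynomial (Fin n) k)) (v i) := rfl
      rw [this, AlgHom.commutes]
      simp [v]
    obtain ⟨N, hN⟩ := hρ _ h1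
    refine ⟨N, ?_⟩
    rw [← map_pow] at hN
    exact Ideal.Quotient.eq_zero_iff_mem.1 hN
  choose N0 hN0 using hnil
  let N := ∑ i, N0 i
  have hN : ∀ i, ((1 : K) ⊗ₜ[k] (X i : (MvPolynomial (Fin n) k)) - (v i) ⊗ₜ[k] (1 : (MvPolynomial (Fin n) k))) ^ N ∈ cK.ideal := by
    intro i
    have hle : N0 i ≤ N := Finset.single_le_sum (fun _ _ => Nat.zero_le _) (Finset.mem_univ i)
    obtain ⟨t, ht⟩ := Nat.exists_eq_add_of_le hle
    rw [ht, pow_add]
    exact cK.ideal.mul_mem_right _ (hN0 i)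
  -- integrality
  have hcD : Module.Finite D ((D ⊗[k] (MvPolynomial (Fin n) k)) ⧸ c.ideal) := by
    have hk : LinearMap.ker c.L = c.ideal.restrictScalars D := by
      ext x
      rw [LinearMap.mem_ker, Submodule.restrictScalars_mem, Chart.mem_ideal]
    let e : ((D ⊗[k] (MvPolynomial (Fin n) k)) ⧸ c.ideal) ≃ₗ[D] (Fin d → D) :=
      (Submodule.quotEquivOfEq _ _ hk.symm).trans
        (c.L.quotKerEquivOfSurjective (fun v => ⟨Chart.expand D b v, c.L_expand v⟩))
    exact Module.Finite.equiv e.symm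
  have hker : ∀ x : D ⊗[k] (MvPolynomial (Fin n) k), x ∈ c.ideal → (π.toRingHom.comp (bc (MvPolynomial (Fin n) k) φ).toRingHom) x = 0 := by
    intro x hx
    have h1 : bc (MvPolynomial (Fin n) k) φ x ∈ cK.ideal := by
      rw [hcK, Chart.ideal_map]
      exact Ideal.mem_map_of_mem _ hx
    have h2 : Ideal.Quotient.mkₐ K cK.ideal (bc (MvPolynomial (Fin n) k) φ x) = 0 := Ideal.Quotient.eq_zero_iff_mem.2 h1
    change ρ (Ideal.Quotient.mkₐ K cK.ideal (bc (MvPolynomial (Fin n) k) φ x)) = 0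
    rw [h2, map_zero]
  let θ : ((D ⊗[k] (MvPolynomial (Fin n) k)) ⧸ c.ideal) →+* K :=
    Ideal.Quotient.lift c.ideal (π.toRingHom.comp (bc (MvPolynomial (Fin n) k) φ).toRingHom) hker
  have hθ : ∀ x : D, θ (algebraMap D ((D ⊗[k] (MvPolynomial (Fin n) k)) ⧸ c.ideal) x) = algebraMap D K x := by
    intro x
    change π (bc (MvPolynomial (Fin n) k) φ (x ⊗ₜ 1)) = _
    rw [Algebra.TensorProduct.map_tmul, map_one]
    have : (φ x) ⊗ₜ[k] (1 : (MvPolynomial (Fin n) k)) = algebraMap K (K ⊗[k] (MvPolynomial (Fin n) k)) (φ x) := rfl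
    rw [this, AlgHom.commutes]
    rfl
  have hint : ∀ i, IsIntegral D (v i) := by
    intro i
    have h1 : IsIntegral D (Ideal.Quotient.mk c.ideal (1 ⊗ₜ[k] (X i : (MvPolynomial (Fin n) k)))) :=
      Algebra.IsIntegral.isIntegral _
    let θ' : ((D ⊗[k] (MvPolynomial (Fin n) k)) ⧸ c.ideal) →ₐ[D] K := { θ with commutes' := hθ }
    have h2 := h1.map θ'
    have h3 : θ' (Ideal.Quotient.mk c.ideal (1 ⊗ₜ[k] (X i : (MvPolynomial (Fin n) k)))) = v i := by
      change π (bc (MvPolynomial (Fin n) k) φ (1 ⊗ₜ X i)) = _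
      rw [Algebra.TensorProduct.map_tmul, map_one]
      rfl
    rwa [h3] at h2
  obtain ⟨D', hD', g', hg'⟩ := exists_extend hinj v hint g
  let v' : Fin n → D' := fun i => ⟨v i, hD' i⟩
  let j : D →ₐ[k] D' := IsScalarTower.toAlgHom k D D'
  let j' : D' →ₐ[k] K := IsScalarTower.toAlgHom k D' K
  have hj : j'.comp j = φ := by
    ext x
    rfl
  refine ⟨fun i => g' (v' i), ?_⟩
  apply radical_eq_pointIdeal _ (ker_ne_top hd _) _ N
  intro i
  -- the equation over D'
  have hE : ((c.map j).L (((1 : D') ⊗ₜ[k] (X i : (MvPolynomial (Fin n) k)) - (v' i) ⊗ₜ[k] (1 : (MvPolynomial (Fin n) k))) ^ N)) = 0 := by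
    funext l
    have h1 := Chart.map_L (c.map j) j'
      (((1 : D') ⊗ₜ[k] (X i : (MvPolynomial (Fin n) k)) - (v' i) ⊗ₜ[k] (1 : (MvPolynomial (Fin n) k))) ^ N) l
    rw [Chart.map_map, hj, map_pow, map_sub, Algebra.TensorProduct.map_tmul,
      Algebra.TensorProduct.map_tmul, map_one] at h1
    have h2 := congrFun (Chart.mem_ideal.1 (hN i)) l
    have h3 : j' (v' i) = v i := rfl
    rw [h3] at h1
    have h4 : (c.map φ).L (((1 : K) ⊗ₜ[k] (AlgHom.id k (MvPolynomial (Fin n) k)) (X i : (MvPolynomial (Fin n) k)) -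
        (v i) ⊗ₜ[k] (AlgHom.id k (MvPolynomial (Fin n) k)) (1 : (MvPolynomial (Fin n) k))) ^ N) l = 0 := h2
    rw [h4] at h1
    have h5 : Function.Injective j' := Subtype.val_injective
    refine h5 ?_
    rw [← h1, Pi.zero_apply, map_zero]
  have h6 : (c.map g).L (bc (MvPolynomial (Fin n) k) g' (((1 : D') ⊗ₜ[k] (X i : (MvPolynomial (Fin n) k)) - (v' i) ⊗ₜ[k] (1 : (MvPolynomial (Fin n) k))) ^ N)) = 0 := by
    ext l
    rw [← hg', ← Chart.map_map, Chart.map_L]
    have h7 := congrFun hE l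
    change g' ((c.map j).L _ l) = _
    rw [h7, Pi.zero_apply, map_zero, Pi.zero_apply]
  rw [Chart.mem_ker]
  rw [map_pow, map_sub, Algebra.TensorProduct.map_tmul, Algebra.TensorProduct.map_tmul,
    map_one] at h6
  have h8 : ((1 : k) ⊗ₜ[k] (AlgHom.id k (MvPolynomial (Fin n) k)) (X i : (MvPolynomial (Fin n) k)) -
      (g' (v' i)) ⊗ₜ[k] (AlgHom.id k (MvPolynomial (Fin n) k)) (1 : (MvPolynomial (Fin n) k))) ^ N =
      (1 : k) ⊗ₜ[k] ((X i - C (g' (v' i))) ^ N : (MvPolynomial (Fin n) k)) := by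
    rw [← one_pow N, ← Algebra.TensorProduct.tmul_pow, one_pow, TensorProduct.tmul_sub]
    congr 2
    rw [AlgHom.id_apply, ← mul_one (g' (v' i)), ← smul_eq_mul, TensorProduct.smul_tmul,
      Algebra.smul_def, mul_one, smul_eq_mul, mul_one]
    rfl
  rw [h8, Chart.L_tmul, one_smul] at h6
  exact h6

end

end Pool.Agent.W5h92.Elem
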