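import Mathlib
import Pool.Agent.W5h92.Elem.Defs
import Pool.Agent.W5h92.Elem.Local

/-! Components of the Hilbert scheme and minimal primes of the charts. -/

set_option autoImplicit false

open scoped TensorProduct
open CategoryTheory AlgebraicGeometry
open Pool.Agent.Helper226

universe u

namespace Pool.Agent.W5h92.Elem

section
variable {k : Type u} [Field k] {B : Type u} [CommRing B] [Algebra k B] {d : ℕ}

lemma uc_generates {b : Fin d → B} (S : Subalgebra k (AR k b))
    (h : ∀ x j, (uc k b).q x j ∈ S) : S = ⊤ := by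
  -- the chart ring surjects
  let ψ : ChartRing k b →ₐ[k] AR k b := (uc k b).lift
  have hψ : (univChart k b).map ψ = uc k b := (uc k b).map_lift
  have hid : ψ.comp (clf (univChart k b)) = AlgHom.id k (AR k b) := by
    apply hom_ext_uc
    rw [← Chart.map_map, uc_map_clf, hψ, Chart.map_id]
  rw [eq_top_iff]
  rintro a -
  have h1 : ψ (clf (univChart k b) a) = a := DFunLike.congr_fun hid a
  rw [← h1]
  obtain ⟨p, hp⟩ := Ideal.Quotient.mk_surjective (clf (univChart k b) a)
  rw [← hp]
  clear hp h1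
  induction p using MvPolynomial.induction_on with
  | C a =>
    change ψ (algebraMap k (ChartRing k b) a) ∈ S
    rw [AlgHom.commutes]
    exact Subalgebra.algebraMap_mem _ a
  | add p q hp hq => rw [map_add, map_add]; exact Subalgebra.add_mem _ hp hq
  | mul_X p i hp =>
    rw [map_mul, map_mul]
    refine Subalgebra.mul_mem _ hp ?_
    obtain ⟨x, j⟩ := i
    have h2 : ψ (Ideal.Quotient.mk (chartIdeal k b) (MvPolynomial.X (x, j))) = (uc k b).q x j :=
      Chart.lift_mk _ _ _
    rw [h2]
    exact h x j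

variable {K : Type u} [Field K] [Algebra k K]

lemma alg_of_q {b : Fin d → B} (c : Chart k b K) (S : Set K)
    (h : ∀ x j, IsAlgebraic (Algebra.adjoin k S) (c.q x j)) (a : AR k b) :
    IsAlgebraic (Algebra.adjoin k S) (clf c a) := by
  let F := IntermediateField.adjoin k S
  let E : IntermediateField F K := algebraicClosure F K
  have hmem : ∀ z : K, IsAlgebraic (Algebra.adjoin k S) z ↔ z ∈ E := by
    intro z
    rw [mem_algebraicClosure_iff, IntermediateField.isAlgebraic_adjoin_iff]
  let T : Subalgebra k (AR k b) := (E.restrictScalars k).toSubalgebra.comap (clf c)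
  have hT : T = ⊤ := by
    apply uc_generates
    intro x j
    change clf c ((uc k b).q x j) ∈ E
    rw [← Chart.map_q, uc_map_clf, ← hmem]
    exact h x j
  have h1 : a ∈ T := by rw [hT]; trivial
  rw [hmem]
  exact h1

/-- comparison of the transcendence degrees: a specialization has smaller transcendence degree -/
lemma Bd.specialize {K' : Type u} [Field K'] [Algebra k K'] {b : Fin d → B} (c : Chart k b K)
    (c' : Chart k b K') (h : RingHom.ker (clf c') ≤ RingHom.ker (clf c)) {N : ℕ} (hN : Bd c' N) :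
    Bd c N := by
  obtain ⟨s, hs, h1⟩ := hN
  let 𝔭 := RingHom.ker (clf c')
  let 𝔮 := RingHom.ker (clf c)
  have h𝔮 : 𝔮.IsPrime := RingHom.ker_isPrime _
  have hD : IsDomain (AR k b ⧸ 𝔮) := Ideal.Quotient.isDomain _
  have h2 : Algebra.trdeg k (AR k b ⧸ 𝔭) ≤ s.card := by
    apply trdeg_le_of_alg (Ideal.kerLiftAlg (clf c')) (Ideal.kerLiftAlg_injective _) s
    intro a
    obtain ⟨a, rfl⟩ := Ideal.Quotient.mk_surjective a
    exact alg_of_q c' _ h1 a
  have h3 : Algebra.trdeg k (AR k b ⧸ 𝔮) ≤ Algebra.trdeg k (AR k b ⧸ 𝔭) :=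
    trdeg_le_of_surjective (Ideal.Quotient.factorₐ k h) (by
      intro x
      obtain ⟨x, rfl⟩ := Ideal.Quotient.mk_surjective x
      exact ⟨Ideal.Quotient.mk _ x, rfl⟩)
  have h4 : Algebra.trdeg k (AR k b ⧸ 𝔮) ≤ N :=
    (h3.trans h2).trans (by exact_mod_cast hs)
  obtain ⟨t, ht, h5⟩ := exists_alg_of_trdeg_le (Ideal.kerLiftAlg (clf c))
    (Ideal.kerLiftAlg_injective _) N h4
  refine ⟨t, ht, fun x j => ?_⟩
  have h6 := h5 (Ideal.Quotient.mk _ ((uc k b).q x j))
  have h7 : (Ideal.kerLiftAlg (clf c)) (Ideal.Quotient.mk _ ((uc k b).q x j)) = c.q x j := by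
    change clf c ((uc k b).q x j) = _
    rw [← Chart.map_q, uc_map_clf]
  rwa [h7] at h6

/-- minimal primes of a chart come from components of the Hilbert scheme -/
lemma exists_component {b : Fin d → B} (x : PrimeSpectrum (AR k b))
    (hx : x.asIdeal ∈ minimalPrimes (AR k b)) :
    ∃ C ∈ irreducibleComponents (HilbS k B d),
      ∀ y : Spec (CommRingCat.of (AR k b)), chartι k (Idx.single b) y ∈ C ↔
        x.asIdeal ≤ y.asIdeal := by
  let x' : Spec (CommRingCat.of (AR k b)) := x
  let ψ := chartι k (Idx.single b)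
  let C := irreducibleComponent (ψ x')
  have hC : C ∈ irreducibleComponents (HilbS k B d) :=
    irreducibleComponent_mem_irreducibleComponents _
  have hxC : ψ x' ∈ C := mem_irreducibleComponent
  have h1 : (ψ : _ → HilbS k B d) ⁻¹' C ∈ irreducibleComponents (Spec (CommRingCat.of (AR k b))) :=
    preimage_mem_irreducibleComponents hC ψ.isOpenEmbedding ⟨ψ x', hxC, ⟨x', rfl⟩⟩
  have h2 : closure ({x} : Set (PrimeSpectrum (AR k b))) ∈
      irreducibleComponents (PrimeSpectrum (AR k b)) := by
    rw [← PrimeSpectrum.vanishingIdeal_mem_minimalPrimes, PrimeSpectrum.vanishingIdeal_singleton]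
    exact hx
  have hcl : IsClosed ((ψ : _ → HilbS k B d) ⁻¹' C) :=
    (isClosed_of_mem_irreducibleComponents _ hC).preimage ψ.continuous
  have h3 : closure ({x} : Set (PrimeSpectrum (AR k b))) ⊆ (ψ : _ → HilbS k B d) ⁻¹' C := by
    apply closure_minimal _ hcl
    rintro _ rfl
    exact hxC
  have h4 : (ψ : _ → HilbS k B d) ⁻¹' C = closure ({x} : Set (PrimeSpectrum (AR k b))) :=
    Set.Subset.antisymm (h2.2 h1.1 h3) h3
  refine ⟨C, hC, fun y => ?_⟩
  have h5 : chartι k (Idx.single b) y ∈ C ↔
      y ∈ closure ({x} : Set (PrimeSpectrum (AR k b))) := by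
    rw [← h4]
    rfl
  rw [h5, PrimeSpectrum.closure_singleton]
  exact Iff.rfl

end

section poly
variable {k : Type u} [Field k] [IsAlgClosed k] {n d : ℕ}

/-- if the generic member of a component is local, the component is elementary -/
theorem elementary_of_local (hd : 1 ≤ d) {b : Fin d → MvPolynomial (Fin n) k}
    (x : PrimeSpectrum (AR k b))
    (C : Set (HilbS k (MvPolynomial (Fin n) k) d))
    (hC : C ∈ irreducibleComponents (HilbS k (MvPolynomial (Fin n) k) d))
    (hx : ∀ y : Spec (CommRingCat.of (AR k b)), chartι k (Idx.single b) y ∈ C ↔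
        x.asIdeal ≤ y.asIdeal)
    {K : Type u} [Field K] [IsAlgClosed K] [Algebra k K] (φ : AR k b →ₐ[k] K)
    (hφ : RingHom.ker φ = x.asIdeal)
    (hloc : IsLocalRing ((K ⊗[k] MvPolynomial (Fin n) k) ⧸ ((uc k b).map φ).ideal)) :
    IsElementary (hilb k (MvPolynomial (Fin n) k) d) C := by
  refine ⟨hC, Set.range (chartι k (Idx.single b)),
    (chartι k (Idx.single b)).isOpenEmbedding.isOpen_range, ?_, ?_⟩
  · have hAR : Algebra.FiniteType k (AR k b) := univ_finiteType (k := k) (Idx.single b)
    obtain ⟨M, hM, hle⟩ := Ideal.exists_le_maximal x.asIdeal x.isPrime.ne_top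
    obtain ⟨g, hg⟩ := exists_hom_of_maximal (k := k) M hM
    refine ⟨⟨mor ((uc k b).map g), mor_str _⟩, ?_⟩
    intro y hy
    have h1 := (mem_range_mor_iff _ _).1 hy
    have hclf : clf ((uc k b).map g) = g := by
      apply hom_ext_uc
      rw [uc_map_clf]
    constructor
    · rw [h1]
      refine (hx _).2 ?_
      rw [zp_asIdeal, hclf, hg]
      exact hle
    · rw [h1]
      exact ⟨_, rfl⟩
  · intro f hf
    let y0 : Spec (CommRingCat.of k) := (⟨⊥, Ideal.isPrime_bot⟩ : PrimeSpectrum k)
    obtain ⟨hfC, o, ho⟩ := hf ⟨y0, rfl⟩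
    have h1 : chartι k (Idx.single b) o ∈ (hilb k (MvPolynomial (Fin n) k) d).locus
        (fun I => I = (hilb k (MvPolynomial (Fin n) k) d).idealOf f) := by
      rw [ho]
      exact ⟨f, ⟨y0, rfl⟩, rfl⟩
    obtain ⟨c, hc, hz⟩ := exists_chart_in _ o h1
    have h2 : x.asIdeal ≤ RingHom.ker (clf c) := by
      have h3 : chartι k (Idx.single b) o ∈ C := by
        rw [ho]
        exact hfC
      have h4 := (hx o).1 h3
      rw [hz, zp_asIdeal] at h4
      exact h4
    -- factor through the domain
    let 𝔭 := RingHom.ker φ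
    have h𝔭 : 𝔭 ≤ RingHom.ker (clf c) := by
      change RingHom.ker φ ≤ _
      rw [hφ]
      exact h2
    let D := AR k b ⧸ 𝔭
    let ι : D →ₐ[k] K := Ideal.kerLiftAlg φ
    have hι : Function.Injective ι := Ideal.kerLiftAlg_injective _
    algebraize [ι.toRingHom]
    have htow : IsScalarTower k D K := IsScalarTower.of_algebraMap_eq fun r => by
      change _ = ι (algebraMap k D r)
      rw [AlgHom.commutes]
    have hAR : Algebra.FiniteType k (AR k b) := univ_finiteType (k := k) (Idx.single b)
    have hft : Algebra.FiniteType k D :=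
      Algebra.FiniteType.of_surjective (Ideal.Quotient.mkₐ k 𝔭) Ideal.Quotient.mk_surjective
    let cD : Chart k b D := (uc k b).map (Ideal.Quotient.mkₐ k 𝔭)
    have hcD : cD.map (IsScalarTower.toAlgHom k D K) = (uc k b).map φ := by
      change ((uc k b).map (Ideal.Quotient.mkₐ k 𝔭)).map _ = _
      rw [Chart.map_map]
      congr 1
    let g : D →ₐ[k] k := Ideal.Quotient.liftₐ 𝔭 (clf c) (fun a ha => h𝔭 ha)
    have hg : cD.map g = c := by
      change ((uc k b).map (Ideal.Quotient.mkₐ k 𝔭)).map _ = _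
      rw [Chart.map_map]
      conv_rhs => rw [← uc_map_clf c]
      congr 1
    obtain ⟨w, hw⟩ := local_family (K := K) hd hι cD (by rw [hcD]; exact hloc) g
    rw [hg, hc] at hw
    exact ⟨w, hw⟩

end poly

end Pool.Agent.W5h92.Elem
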