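import Mathlib
import Pool.Agent.W5h92.Elem.Comp
import Pool.Agent.Y97.VC3.Inst

/-! Linear growth of the transcendence degree if there are only finitely many elementary
components, and the contradiction. -/

set_option autoImplicit false

open scoped TensorProduct
open CategoryTheory AlgebraicGeometry
open Pool.Agent.Helper226 Pool.Agent.Y97.VC3

universe u

namespace Pool.Agent.W5h92.Elem

section poly
variable {k : Type u} [Field k] [IsAlgClosed k] {n : ℕ}

omit [IsAlgClosed k] in
lemma Bd.poly {d : ℕ} {b : Fin d → MvPolynomial (Fin n) k} {K : Type u} [Field K] [Algebra k K]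
    (c : Chart k b K) : Bd c (d + n * (d * d)) := by
  classical
  have h := Bd.finite (k := k) (b := b) (Finset.univ.image (MvPolynomial.X (R := k) (σ := Fin n)))
    (by simp [MvPolynomial.adjoin_range_X]) c
  apply h.mono
  apply Nat.add_le_add_left
  apply Nat.mul_le_mul_right
  exact Finset.card_image_le.trans (by simp)

/-- If there is no elementary component for `d > R`, the transcendence degrees grow linearly. -/
theorem bd_linear (R : ℕ) (hR : ∀ d : ℕ, R < d → ∀ C,
      ¬ IsElementary (hilb k (MvPolynomial (Fin n) k) d) C) (d : ℕ) :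
    ∀ (b : Fin d → MvPolynomial (Fin n) k) (K : Type u) [Field K] [Algebra k K]
      (c : Chart k b K), Bd c ((n + 1) * R * d) := by
  induction d using Nat.strong_induction_on with
  | _ d ih =>
    intro b K _ _ c
    rcases Nat.eq_zero_or_pos d with h0 | hd
    · subst h0
      exact ⟨∅, by simp, fun x j => j.elim0⟩
    rcases Nat.lt_or_ge R d with hRd | hRd
    · -- the generic member splits
      have hq : (RingHom.ker (clf c)).IsPrime := RingHom.ker_isPrime _
      obtain ⟨𝔭, h𝔭, hle⟩ := Ideal.exists_minimalPrimes_le (I := ⊥) (J := RingHom.ker (clf c)) bot_le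
      have hp : 𝔭.IsPrime := h𝔭.1.1
      let D := AR k b ⧸ 𝔭
      have hD : IsDomain D := Ideal.Quotient.isDomain _
      let K' := AlgebraicClosure (FractionRing D)
      let φ : AR k b →ₐ[k] K' :=
        (IsScalarTower.toAlgHom k D K').comp (Ideal.Quotient.mkₐ k 𝔭)
      have hinj : Function.Injective (algebraMap D K') := by
        rw [IsScalarTower.algebraMap_eq D (FractionRing D) K']
        exact (algebraMap (FractionRing D) K').injective.comp (IsFractionRing.injective D _)
      have hker : RingHom.ker φ = 𝔭 := by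
        ext z
        rw [RingHom.mem_ker]
        constructor
        · intro h
          have h1 : algebraMap D K' (Ideal.Quotient.mk 𝔭 z) = 0 := h
          rw [← map_zero (algebraMap D K')] at h1
          exact Ideal.Quotient.eq_zero_iff_mem.1 (hinj h1)
        · intro h
          change algebraMap D K' (Ideal.Quotient.mk 𝔭 z) = 0
          rw [Ideal.Quotient.eq_zero_iff_mem.2 h, map_zero]
      let c' : Chart k b K' := (uc k b).map φ
      have hclf : clf c' = φ := by
        apply hom_ext_uc
        rw [uc_map_clf]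
      obtain ⟨C, hC, hx⟩ := exists_component (⟨𝔭, hp⟩ : PrimeSpectrum (AR k b)) h𝔭
      have hloc : ¬ IsLocalRing ((K' ⊗[k] MvPolynomial (Fin n) k) ⧸ c'.ideal) := by
        intro hloc
        exact hR d hRd C (elementary_of_local hd _ C hC hx φ hker hloc)
      obtain ⟨hfin, hrank⟩ := chart_quot c'
      have hne : c'.ideal ≠ ⊤ := by
        intro htop
        rw [htop] at hrank
        have : Subsingleton ((K' ⊗[k] MvPolynomial (Fin n) k) ⧸
            (⊤ : Ideal (K' ⊗[k] MvPolynomial (Fin n) k))) :=
          Ideal.Quotient.subsingleton_iff.2 rfl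
        rw [Module.finrank_zero_of_subsingleton] at hrank
        omega
      obtain ⟨J, J', hinf, hJ, hJ', hf, hf', hsum⟩ := exists_split (K := K') c'.ideal hne hloc
      obtain ⟨b₁, c₁, hc₁⟩ := exists_chart J _ rfl
      obtain ⟨b₂, c₂, hc₂⟩ := exists_chart J' _ rfl
      have hpos : ∀ L : Ideal (K' ⊗[k] MvPolynomial (Fin n) k), L ≠ ⊤ →
          Module.Finite K' ((K' ⊗[k] MvPolynomial (Fin n) k) ⧸ L) →
          0 < Module.finrank K' ((K' ⊗[k] MvPolynomial (Fin n) k) ⧸ L) := by
        intro L hL hfL
        have : Nontrivial ((K' ⊗[k] MvPolynomial (Fin n) k) ⧸ L) :=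
          Ideal.Quotient.nontrivial_iff.2 hL
        exact Module.finrank_pos
      have p1 := hpos J hJ hf
      have p2 := hpos J' hJ' hf'
      rw [hrank] at hsum
      have i1 := ih _ (by omega) b₁ K' c₁
      have i2 := ih _ (by omega) b₂ K' c₂
      have i3 : Bd c' ((n + 1) * R * d) := by
        have := Bd.inf (c := c') (by rw [hc₁, hc₂, hinf]) i1 i2
        rw [← mul_add, hsum] at this
        exact this
      exact Bd.specialize c c' (by rw [hclf, hker]; exact hle) i3
    · apply (Bd.poly c).mono
      have h1 : d * d ≤ R * d := Nat.mul_le_mul_right d hRd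
      have h2 : d ≤ R * d := Nat.le_mul_of_pos_left d (by omega)
      calc d + n * (d * d) ≤ R * d + n * (R * d) :=
            Nat.add_le_add h2 (Nat.mul_le_mul_left n h1)
        _ = (n + 1) * R * d := by ring

omit [IsAlgClosed k] in
/-- the dimension of the family of very compressed ideals bounds the transcendence degree from
below -/
lemma le_of_bd {s d : ℕ} (D : SData n s d) (z : Fin n)
    (hz : ∀ j, D.e j ≠ Finsupp.single z s) (hs : 1 ≤ s) (N : ℕ)
    (h : ∀ (K : Type u) [Field K] [Algebra k K] (c : Chart k (mb k D.e) K), Bd c N) :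
    Fintype.card (NI D) * Fintype.card (EI D) ≤ N := by
  let P := MvPolynomial (ULift.{u} (NI D × EI D)) k
  let K := FractionRing P
  let φ : P →ₐ[k] K := IsScalarTower.toAlgHom k P K
  have hφ : Function.Injective φ := IsFractionRing.injective P K
  let c : Chart k (mb k D.e) K := (fam D k z hz hs).map φ
  obtain ⟨t, ht, h1⟩ := h K c
  have h2 : ∀ a : P, IsAlgebraic (Algebra.adjoin k (t : Set K)) (φ a) := by
    intro a
    obtain ⟨a', rfl⟩ := clf_fam_surjective D k z hz hs a
    have h3 := alg_of_q c (t : Set K) h1 a'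
    have h4 : clf c = φ.comp (clf (fam D k z hz hs)) := clf_map _ _
    rw [h4] at h3
    exact h3
  have h5 := trdeg_le_of_alg φ hφ t h2
  rw [MvPolynomial.trdeg_of_isDomain] at h5
  have h6 : Cardinal.lift.{u, u} (Cardinal.mk (ULift.{u} (NI D × EI D))) =
      ((Fintype.card (NI D) * Fintype.card (EI D) : ℕ) : Cardinal.{u}) := by
    simp
  rw [h6] at h5
  have h7 : Fintype.card (NI D) * Fintype.card (EI D) ≤ t.card := by exact_mod_cast h5
  exact h7.trans ht

end poly

section three
variable {k : Type u} [Field k] [IsAlgClosed k]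

lemma choose_three_bound (m : ℕ) (hm : 1 ≤ m) :
    (2 * m + 2).choose 3 + m ^ 2 ≤ 5 * m ^ 3 := by
  have e1 : (2 * m + 2).choose 3 * 3 = (2 * m + 2).choose 2 * (2 * m) := by
    have := Nat.choose_succ_right_eq (2 * m + 2) 2
    simpa using this
  have e2 : (2 * m + 2).choose 2 * 2 = (2 * m + 2) * (2 * m + 1) := by
    have := Nat.choose_succ_right_eq (2 * m + 2) 1
    simpa using this
  have e3 : (2 * m + 2).choose 2 = (m + 1) * (2 * m + 1) := by nlinarith
  rw [e3] at e1
  have e4 : (2 * m + 2).choose 3 * 3 ≤ 12 * m ^ 3 := by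
    rw [e1]
    obtain ⟨t, rfl⟩ := Nat.exists_eq_add_of_le hm
    ring_nf
    nlinarith [Nat.zero_le t, Nat.zero_le (t ^ 2), Nat.zero_le (t ^ 3)]
  have e5 : m ^ 2 ≤ m ^ 3 := Nat.pow_le_pow_right hm (by norm_num)
  omega

/-- **Main theorem** for the constructed Hilbert schemes. -/
theorem exists_elementary (R : ℕ) :
    ∃ d : ℕ, R < d ∧ ∃ C, IsElementary (hilb k (MvPolynomial (Fin 3) k) d) C := by
  classical
  by_contra hcon
  push Not at hcon
  have hlin := bd_linear (k := k) (n := 3) R hcon
  -- the family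
  set c0 := (3 + 1) * R with hc0
  let m := 5 * c0 + 1
  have hm : 1 ≤ m := by omega
  have hcard : m ^ 2 ≤ (Od (2 * m)).card := le_card_Od (2 * m) (m ^ 2) (by ring_nf; rfl)
  obtain ⟨T, hT, hTc⟩ := Finset.exists_subset_card_eq hcard
  let d := (2 * m + 2).choose 3 + T.card
  let D := DD (s := 2 * m) hT (rfl : (2 * m + 2).choose 3 + T.card = d)
  have h1 := le_of_bd (k := k) D 2 (DD_z hT rfl (by omega)) (by omega) (c0 * d)
    (fun K _ _ c => hlin d (mb k D.e) K c)
  have h2 : Fintype.card (EI D) = m ^ 2 := by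
    rw [← hTc]
    exact card_EI hT rfl
  have h3 := card_NI D (by norm_num)
  rw [h2] at h3
  have h4 : (2 * m + 3 - 1).choose (3 - 1) = (m + 1) * (2 * m + 1) := by
    have e2 : (2 * m + 2).choose 2 * 2 = (2 * m + 2) * (2 * m + 1) := by
      have := Nat.choose_succ_right_eq (2 * m + 2) 1
      simpa using this
    change (2 * m + 2).choose 2 = _
    nlinarith
  rw [h4] at h3
  have h5 : m ^ 2 ≤ Fintype.card (NI D) := by nlinarith
  have h6 : d ≤ 5 * m ^ 3 := by
    change (2 * m + 2).choose 3 + T.card ≤ _
    rw [hTc]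
    exact choose_three_bound m hm
  have h7 : m ^ 2 * m ^ 2 ≤ c0 * (5 * m ^ 3) := by
    calc m ^ 2 * m ^ 2 ≤ Fintype.card (NI D) * Fintype.card (EI D) := by
          rw [h2]; exact Nat.mul_le_mul_right _ h5
      _ ≤ c0 * d := h1
      _ ≤ c0 * (5 * m ^ 3) := Nat.mul_le_mul_left _ h6
  have h8 : m ^ 3 * m ≤ m ^ 3 * (5 * c0) := by
    calc m ^ 3 * m = m ^ 2 * m ^ 2 := by ring
      _ ≤ c0 * (5 * m ^ 3) := h7
      _ = m ^ 3 * (5 * c0) := by ring
  have h9 : m ≤ 5 * c0 := Nat.le_of_mul_le_mul_left h8 (by positivity)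
  omega

end three

end Pool.Agent.W5h92.Elem
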