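import Mathlib
import Pool.Agent.W5h92.Elem.Defs
import Pool.Agent.Helper413.Gal.Uniq

/-! Being elementary does not depend on the choice of the Hilbert scheme. -/

set_option autoImplicit false

open scoped TensorProduct
open CategoryTheory AlgebraicGeometry
open Pool.Agent.Helper226 Pool.Agent.Helper413.Gal

universe u

namespace Pool.Agent.W5h92.Elem

variable {k : Type u} [Field k] {n d : ℕ}

lemma IsElementary.transport {𝓗₁ : HilbertScheme k (MvPolynomial (Fin n) k) d}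
    (𝓗₂ : HilbertScheme k (MvPolynomial (Fin n) k) d) {C : Set 𝓗₁.H} (h : IsElementary 𝓗₁ C) :
    IsElementary 𝓗₂ ((tmor 𝓗₂ 𝓗₁ : 𝓗₂.H → 𝓗₁.H) ⁻¹' C) := by
  obtain ⟨hC, U, hU, ⟨f₁, hf₁⟩, hP⟩ := h
  have key : ∀ (𝓗 𝓗' : HilbertScheme k (MvPolynomial (Fin n) k) d)
      (f : PointsOver k 𝓗.H 𝓗.s k), 𝓗'.idealOf (tr 𝓗 𝓗' k f) = 𝓗.idealOf f := by
    intro 𝓗 𝓗' f
    unfold HilbertScheme.idealOf
    rw [Φ_tr]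
  have hran : ∀ (𝓗 𝓗' : HilbertScheme k (MvPolynomial (Fin n) k) d)
      (f : PointsOver k 𝓗.H 𝓗.s k) (y), (tr 𝓗 𝓗' k f).1 y = tmor 𝓗 𝓗' (f.1 y) := by
    intro 𝓗 𝓗' f y
    rw [tr_val, Scheme.Hom.comp_apply]
  have hback : ∀ x : 𝓗₁.H, tmor 𝓗₂ 𝓗₁ (tmor 𝓗₁ 𝓗₂ x) = x := by
    intro x
    rw [← Scheme.Hom.comp_apply, tmor_tmor]
    rfl
  refine ⟨?_, (tmor 𝓗₂ 𝓗₁ : 𝓗₂.H → 𝓗₁.H) ⁻¹' U, hU.preimage (tmor 𝓗₂ 𝓗₁).continuous, ?_, ?_⟩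
  · apply preimage_mem_irreducibleComponents hC (tmor 𝓗₂ 𝓗₁).isOpenEmbedding
    obtain ⟨x, hx⟩ := hC.1.1
    exact ⟨x, hx, ⟨tmor 𝓗₁ 𝓗₂ x, hback x⟩⟩
  · refine ⟨tr 𝓗₁ 𝓗₂ k f₁, ?_⟩
    rintro _ ⟨y, rfl⟩
    rw [hran]
    have h1 := hf₁ ⟨y, rfl⟩
    constructor
    · change tmor 𝓗₂ 𝓗₁ (tmor 𝓗₁ 𝓗₂ (f₁.1 y)) ∈ C
      rw [hback]
      exact h1.1
    · change tmor 𝓗₂ 𝓗₁ (tmor 𝓗₁ 𝓗₂ (f₁.1 y)) ∈ U
      rw [hback]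
      exact h1.2
  · intro f hf
    have h1 : Set.range (tr 𝓗₂ 𝓗₁ k f).1 ⊆ C ∩ U := by
      rintro _ ⟨y, rfl⟩
      rw [hran]
      exact hf ⟨y, rfl⟩
    have h2 := hP _ h1
    rw [key] at h2
    exact h2

end Pool.Agent.W5h92.Elem
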